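import Pool.Agent.V5helper40.RRed.Quo

/-!
# Powers of algebraic numbers and the numbers `D_Γ(α) ^ κ * h(α)`
-/

set_option autoImplicit false

namespace Pool.Agent.V5helper34.RG

open Polynomial IntermediateField
open Pool.Agent.W237.RK
open Pool.Agent.H58P (Qb ht)
open Pool.Agent.W669.RK (tor_of_ht_zero)
open Pool.Agent.H58R (ht_nonneg)
open Pool.Agent.H58B (ht_pow)
open Pool.Agent.TH53.RP
open Pool.Agent.TH53.BL
open Pool.Agent.V5helper40.RRed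

/-! ### one gap -/

/-- a set of positive numbers with many multiples which avoids `(a, b)` is at least `b - a` -/
lemma gap_q (S : Set ℝ) (hpos : ∀ s ∈ S, 0 < s)
    (h : ∀ s ∈ S, ∃ s' ∈ S, s' ≤ s ∧ ∀ n : ℕ, 0 < n → (n : ℝ) * s' ∈ S)
    {a b : ℝ} (ha : 0 ≤ a) (hS : ∀ s ∈ S, s ∉ Set.Ioo a b) : ∀ s ∈ S, b - a ≤ s := by
  intro s hs
  by_contra hlt
  push Not at hlt
  obtain ⟨s', hs', hle, hn⟩ := h s hs
  have hp := hpos s' hs'
  have h1 := hn (⌊a / s'⌋₊ + 1) (Nat.succ_pos _)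
  refine hS _ h1 ⟨?_, ?_⟩
  · have h2 : a / s' < (⌊a / s'⌋₊ : ℝ) + 1 := Nat.lt_floor_add_one _
    rw [div_lt_iff₀ hp] at h2
    push_cast
    exact h2
  · have h2 : (⌊a / s'⌋₊ : ℝ) ≤ a / s' := Nat.floor_le (by positivity)
    have h3 : (⌊a / s'⌋₊ : ℝ) * s' ≤ a := by
      rwa [le_div_iff₀ hp] at h2
    push_cast
    linarith [add_mul (⌊a / s'⌋₊ : ℝ) 1 s']

/-! ### the torsion of the set of the quotients of conjugates -/

/-- the roots of unity `u` for which `u x` is a conjugate of `x` over `F` -/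
def tg (F : GF) (hF : ∀ z : Qb, Tor z → z ∈ F) (x : Qb) : Subgroup Qbˣ where
  carrier := {u | Tor (u : Qb) ∧ (u : Qb) * x ∈ orb F x}
  mul_mem' := by
    rintro u v ⟨hu, σ, hσ, h1⟩ ⟨hv, τ, hτ, h2⟩
    refine ⟨by rw [Units.val_mul]; exact hu.mul hv, τ * σ, fix_mul hτ hσ, ?_⟩
    rw [AlgEquiv.mul_apply, h1, map_mul, hτ _ (hF _ hu), h2, Units.val_mul]
    ring
  one_mem' := ⟨by rw [Units.val_one]; exact tor_one, by
    rw [Units.val_one, one_mul]; exact self_mem_orb F x⟩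
  inv_mem' := by
    rintro u ⟨hu, σ, hσ, h1⟩
    have hu' : Tor ((u⁻¹ : Qbˣ) : Qb) := by
      rw [Units.val_inv_eq_inv_val]; exact hu.inv
    refine ⟨hu', σ⁻¹, fix_inv hσ, ?_⟩
    have h2 : σ⁻¹ (σ x) = x := inv_apply_self σ x
    rw [h1, map_mul, fix_inv hσ _ (hF _ hu)] at h2
    calc σ⁻¹ x = ((u⁻¹ : Qbˣ) : Qb) * ((u : Qb) * σ⁻¹ x) := by
          rw [← mul_assoc, Units.inv_mul, one_mul]
      _ = ((u⁻¹ : Qbˣ) : Qb) * x := by rw [h2]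

lemma tg_finite (F : GF) (hF : ∀ z : Qb, Tor z → z ∈ F) {x : Qb} (hx : x ≠ 0) :
    Finite (tg F hF x) := by
  have h1 : ((fun u : Qbˣ => (u : Qb) * x) ⁻¹' orb F x).Finite := by
    refine (orb_finite F x).preimage ?_
    intro u _ v _ huv
    exact Units.ext (mul_right_cancel₀ hx huv)
  exact (h1.subset fun u hu => hu.2 : Set.Finite (tg F hF x : Set Qbˣ)).to_subtype

lemma tg_pow (F : GF) (hF : ∀ z : Qb, Tor z → z ∈ F) {x : Qb} {u : Qbˣ}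
    (hu : u ∈ tg F hF x) : (u : Qb) ^ Nat.card (tg F hF x) = 1 := by
  have h1 : (⟨u, hu⟩ : tg F hF x) ^ Nat.card (tg F hF x) = 1 := pow_card_eq_one'
  have h2 : u ^ Nat.card (tg F hF x) = 1 := congrArg Subtype.val h1
  rw [← Units.val_pow_eq_pow_val, h2, Units.val_one]

lemma rigid_pow (F : GF) (hF : ∀ z : Qb, Tor z → z ∈ F) {x : Qb} (hx : x ≠ 0) :
    TorRigid F (x ^ Nat.card (tg F hF x)) := by
  have hfin := tg_finite F hF hx
  have hm : 0 < Nat.card (tg F hF x) := Nat.card_pos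
  intro ρ hρ ht
  have hη : Tor (ρ x / x) := by
    rw [map_pow, ← div_pow] at ht
    exact Tor.of_pow hm ht
  have h1 : ρ x / x * x = ρ x := div_mul_cancel₀ _ hx
  have hu : Units.mk0 (ρ x / x) hη.ne_zero ∈ tg F hF x := by
    refine ⟨hη, ?_⟩
    rw [Units.val_mk0, h1]
    exact ⟨ρ, hρ, rfl⟩
  have h2 := tg_pow F hF hu
  rw [Units.val_mk0] at h2
  rw [map_pow]
  calc (ρ x) ^ Nat.card (tg F hF x) = (ρ x / x * x) ^ Nat.card (tg F hF x) := by rw [h1]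
    _ = x ^ Nat.card (tg F hF x) := by rw [mul_pow, h2, one_mul]

lemma card_mul_le (F : GF) (hF : ∀ z : Qb, Tor z → z ∈ F) {x : Qb} (hx : x ≠ 0) :
    (orb F (x ^ Nat.card (tg F hF x))).ncard * Nat.card (tg F hF x) ≤ (orb F x).ncard := by
  have hfin := tg_finite F hF hx
  set m := Nat.card (tg F hF x) with hmdef
  have hch : ∀ y : orb F (x ^ m), ∃ σ : Aut, Fix F σ ∧ (σ x) ^ m = (y : Qb) := by
    rintro ⟨y, σ, hσ, h⟩
    exact ⟨σ, hσ, by rw [← map_pow]; exact h⟩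
  choose s hs1 hs2 using hch
  have hmem : ∀ (y : orb F (x ^ m)) (u : tg F hF x), ((u : Qbˣ) : Qb) * s y x ∈ orb F x := by
    rintro y ⟨u, hu, τ, hτ, h⟩
    refine ⟨s y * τ, fix_mul (hs1 y) hτ, ?_⟩
    calc (s y * τ) x = s y (τ x) := rfl
      _ = s y ((u : Qb) * x) := congrArg _ h
      _ = (u : Qb) * s y x := by rw [map_mul, hs1 y _ (hF _ hu)]
  let f : orb F (x ^ m) × tg F hF x → orb F x := fun p => ⟨((p.2 : Qbˣ) : Qb) * s p.1 x, hmem p.1 p.2⟩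
  have hf : Function.Injective f := by
    rintro ⟨y, u⟩ ⟨y', u'⟩ h
    have h1 : ((u : Qbˣ) : Qb) * s y x = ((u' : Qbˣ) : Qb) * s y' x := congrArg Subtype.val h
    have h2 : (y : Qb) = y' := by
      have h3 := congrArg (fun z => z ^ m) h1
      simp only [mul_pow] at h3
      rw [tg_pow F hF u.2, tg_pow F hF u'.2, one_mul, one_mul, hs2, hs2] at h3
      exact h3
    have h4 : y = y' := Subtype.ext h2
    subst h4
    have h5 : s y x ≠ 0 := (map_ne_zero (s y)).mpr hx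
    have h6 : u = u' := Subtype.ext (Units.ext (mul_right_cancel₀ h5 h1))
    rw [h6]
  have hfin2 : Finite (orb F x) := (orb_finite F x).to_subtype
  have h := Nat.card_le_card_of_injective f hf
  rw [Nat.card_prod] at h
  exact h

lemma pow_injOn {F : GF} {y : Qb} (hy0 : y ≠ 0) (hy : TorRigid F y) {n : ℕ} (hn : 0 < n) :
    Set.InjOn (fun z : Qb => z ^ n) (orb F y) := by
  rintro _ ⟨σ, hσ, rfl⟩ _ ⟨τ, hτ, rfl⟩ h
  have h1 : (σ y) ^ n = (τ y) ^ n := h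
  have hσ0 : σ y ≠ 0 := (map_ne_zero σ).mpr hy0
  have h2 : Tor (τ y / σ y) := ⟨n, hn, by rw [div_pow, h1, div_self (h1 ▸ pow_ne_zero n hσ0)]⟩
  have h3 := h2.map σ⁻¹
  rw [map_div₀, inv_apply_self] at h3
  have h4 := hy (σ⁻¹ * τ) (fix_mul (fix_inv hσ) hτ) h3
  rw [AlgEquiv.mul_apply] at h4
  have h5 := congrArg σ h4
  rw [apply_inv_self] at h5
  exact h5.symm

lemma orb_pow_image {F : GF} (y : Qb) (n : ℕ) : orb F (y ^ n) = (fun z => z ^ n) '' orb F y := by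
  ext z
  constructor
  · rintro ⟨ρ, hρ, rfl⟩
    exact ⟨ρ y, ⟨ρ, hρ, rfl⟩, by rw [map_pow]⟩
  · rintro ⟨_, ⟨ρ, hρ, rfl⟩, rfl⟩
    exact ⟨ρ, hρ, by rw [map_pow]⟩

lemma orb_pow_rigid {F : GF} {y : Qb} (hy0 : y ≠ 0) (hy : TorRigid F y) {n : ℕ} (hn : 0 < n) :
    (orb F (y ^ n)).ncard = (orb F y).ncard := by
  rw [orb_pow_image]
  exact (pow_injOn hy0 hy hn).ncard_image

/-! ### the values -/

lemma tor_mem (Γ : Subgroup Qbˣ) (z : Qb) (hz : Tor z) : z ∈ divF Γ := divG_mem (tor_divG hz)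

lemma ht_pos_of {Γ : Subgroup Qbˣ} {x : Qb} (hx0 : x ≠ 0) (hx : ¬ DivG Γ x) : 0 < ht x := by
  refine lt_of_le_of_ne (ht_nonneg x) fun h => hx (tor_divG (tor_of_ht_zero x hx0 h.symm))

/-- the value `D_Γ(x) ^ κ * h(x)` -/
noncomputable def V (Γ : Subgroup Qbˣ) (κ : ℝ) (x : Qb) : ℝ :=
  ((orb (divF Γ) x).ncard : ℝ) ^ κ * ht x

lemma V_pos {Γ : Subgroup Qbˣ} (κ : ℝ) {x : Qb} (hx0 : x ≠ 0) (hx : ¬ DivG Γ x) :
    0 < V Γ κ x := by
  have h1 : (0 : ℝ) < ((orb (divF Γ) x).ncard : ℝ) := by exact_mod_cast orb_ncard_pos _ _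
  exact mul_pos (Real.rpow_pos_of_pos h1 κ) (ht_pos_of hx0 hx)

lemma V_pow {Γ : Subgroup Qbˣ} (κ : ℝ) {y : Qb} (hy0 : y ≠ 0) (hy : TorRigid (divF Γ) y) {n : ℕ}
    (hn : 0 < n) : V Γ κ (y ^ n) = n * V Γ κ y := by
  unfold V
  rw [orb_pow_rigid hy0 hy hn, ht_pow]
  ring

lemma exists_rigid (Γ : Subgroup Qbˣ) {κ : ℝ} (hκ : 1 ≤ κ) {x : Qb} (hx0 : x ≠ 0)
    (hx : ¬ DivG Γ x) :
    ∃ m : ℕ, 0 < m ∧ TorRigid (divF Γ) (x ^ m) ∧ V Γ κ (x ^ m) ≤ V Γ κ x := by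
  have hfin := tg_finite (divF Γ) (tor_mem Γ) hx0
  have hm : 0 < Nat.card (tg (divF Γ) (tor_mem Γ) x) := Nat.card_pos
  have hle := card_mul_le (divF Γ) (tor_mem Γ) hx0
  have hr := rigid_pow (divF Γ) (tor_mem Γ) hx0
  set m := Nat.card (tg (divF Γ) (tor_mem Γ) x) with hmdef
  refine ⟨m, hm, hr, ?_⟩
  unfold V
  rw [ht_pow]
  have hm1 : (1 : ℝ) ≤ (m : ℝ) := by exact_mod_cast hm
  have hD : (0 : ℝ) ≤ ((orb (divF Γ) (x ^ m)).ncard : ℝ) := Nat.cast_nonneg _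
  have h1 : ((orb (divF Γ) (x ^ m)).ncard : ℝ) ^ κ * m ≤ ((orb (divF Γ) x).ncard : ℝ) ^ κ := by
    calc ((orb (divF Γ) (x ^ m)).ncard : ℝ) ^ κ * m
        ≤ ((orb (divF Γ) (x ^ m)).ncard : ℝ) ^ κ * (m : ℝ) ^ κ := by
          refine mul_le_mul_of_nonneg_left ?_ (Real.rpow_nonneg hD κ)
          calc (m : ℝ) = (m : ℝ) ^ (1 : ℝ) := (Real.rpow_one _).symm
            _ ≤ (m : ℝ) ^ κ := Real.rpow_le_rpow_of_exponent_le hm1 hκ
      _ = (((orb (divF Γ) (x ^ m)).ncard : ℝ) * m) ^ κ :=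
          (Real.mul_rpow hD (by positivity)).symm
      _ ≤ ((orb (divF Γ) x).ncard : ℝ) ^ κ := by
          refine Real.rpow_le_rpow (by positivity) ?_ (by linarith)
          exact_mod_cast hle
  calc ((orb (divF Γ) (x ^ m)).ncard : ℝ) ^ κ * (m * ht x)
      = ((orb (divF Γ) (x ^ m)).ncard : ℝ) ^ κ * m * ht x := by ring
    _ ≤ ((orb (divF Γ) x).ncard : ℝ) ^ κ * ht x := mul_le_mul_of_nonneg_right h1 (ht_nonneg x)

/-- **One gap**: if the values at the elements of a set closed under powers avoid `(a, b)`, then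
they are at least `b - a`. -/
theorem one_gap (Γ : Subgroup Qbˣ) {κ : ℝ} (hκ : 1 ≤ κ) (C : Set Qb)
    (hC : ∀ x ∈ C, ∀ n : ℕ, 0 < n → x ^ n ∈ C) {a b : ℝ} (ha : 0 ≤ a)
    (h1 : ∀ x ∈ C, x ≠ 0 → ¬ DivG Γ x → V Γ κ x ∉ Set.Ioo a b) :
    ∀ x ∈ C, x ≠ 0 → ¬ DivG Γ x → b - a ≤ V Γ κ x := by
  have h := gap_q {s | ∃ x ∈ C, x ≠ 0 ∧ ¬ DivG Γ x ∧ s = V Γ κ x} ?_ ?_ ha (b := b)
    (by rintro _ ⟨x, hxC, hx0, hx, rfl⟩; exact h1 x hxC hx0 hx)
  · exact fun x hxC hx0 hx => h _ ⟨x, hxC, hx0, hx, rfl⟩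
  · rintro _ ⟨x, hxC, hx0, hx, rfl⟩
    exact V_pos κ hx0 hx
  · rintro _ ⟨x, hxC, hx0, hx, rfl⟩
    obtain ⟨m, hm, hr, hle⟩ := exists_rigid Γ hκ hx0 hx
    have hy0 : x ^ m ≠ 0 := pow_ne_zero _ hx0
    have hy : ¬ DivG Γ (x ^ m) := fun h => hx (DivG.of_pow hm h)
    refine ⟨_, ⟨x ^ m, hC x hxC m hm, hy0, hy, rfl⟩, hle, fun n hn => ?_⟩
    exact ⟨(x ^ m) ^ n, hC _ (hC x hxC m hm) n hn, pow_ne_zero _ hy0,
      fun h => hy (DivG.of_pow hn h), (V_pow κ hy0 hr hn).symm⟩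

/-! ### primitive numbers -/

lemma N_pow {F : GF} {y : Qb} (hy0 : y ≠ 0) (hy : TorRigid F y) {n : ℕ} (hn : 0 < n) :
    N F (y ^ n) = N F y ^ n := by
  classical
  have h1 : (orb_finite F (y ^ n)).toFinset = (orb_finite F y).toFinset.image fun z => z ^ n := by
    ext z
    rw [Set.Finite.mem_toFinset, orb_pow_image, Finset.mem_image]
    constructor
    · rintro ⟨w, hw, rfl⟩
      exact ⟨w, (Set.Finite.mem_toFinset _).2 hw, rfl⟩
    · rintro ⟨w, hw, rfl⟩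
      exact ⟨w, (Set.Finite.mem_toFinset _).1 hw, rfl⟩
  unfold N
  rw [h1, Finset.prod_image, Finset.prod_pow]
  intro a ha b hb hab
  exact pow_injOn hy0 hy hn ((Set.Finite.mem_toFinset _).1 ha) ((Set.Finite.mem_toFinset _).1 hb) hab

lemma prim_rigid (Γ : Subgroup Qbˣ) {x : Qb} (hp : Prim Γ x) (hx : ¬ DivG Γ x) :
    TorRigid (divF Γ) x := fun σ hσ ht => prim_torsionfree Γ x hp hx σ hσ ht

lemma prim_pow (Γ : Subgroup Qbˣ) {x : Qb} (hp : Prim Γ x) (hx : ¬ DivG Γ x) {n : ℕ}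
    (hn : 0 < n) : Prim Γ (x ^ n) := by
  have hr := prim_rigid Γ hp hx
  have hx0 : x ≠ 0 := by
    rintro rfl
    exact hp.1 (zero_mem _)
  constructor
  · intro hmem
    apply hp.1
    apply mem_of_fix
    intro σ hσ
    apply hr σ hσ
    refine ⟨n, hn, ?_⟩
    rw [div_pow, ← map_pow, hσ _ hmem, div_self (pow_ne_zero n hx0)]
  · intro F' h1 h2 h3
    have hxL : x ∈ divF Γ ⊔ adjoin ℚ {x} := (le_sup_right : _ ≤ divF Γ ⊔ adjoin ℚ {x})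
      (mem_adjoin_simple_self ℚ x)
    have hle : F' ≤ divF Γ ⊔ adjoin ℚ {x} := by
      refine h2.trans (sup_le le_sup_left ?_)
      rw [adjoin_le_iff]
      rintro z rfl
      exact pow_mem hxL n
    have hnot : x ∉ F' := fun h => h3 (pow_mem h n)
    have htor := hp.2 F' h1 hle hnot
    have hrF : TorRigid F' x := fun σ hσ ht => hr σ (fix_mono h1 hσ) ht
    rw [N_pow hx0 hrF hn]
    exact htor.pow n

/-! ### quotients of conjugates -/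

lemma quo_pow (Γ : Subgroup Qbˣ) (k : ℕ) : ∀ (x : Qb), x ∈ Quo Γ k → ∀ n : ℕ, x ^ n ∈ Quo Γ k := by
  induction k with
  | zero => exact fun x hx n => ⟨pow_ne_zero n hx.1, pow_mem hx.2 n⟩
  | succ k ih =>
    rintro x ⟨y, hy, σ, hσ, rfl⟩ n
    exact ⟨y ^ n, ih y hy n, σ, hσ, by rw [map_pow, div_pow]⟩

lemma V_quo (Γ : Subgroup Qbˣ) (k : ℕ) {x : Qb} (hx : x ∈ Quo Γ k) (κ : ℝ) :
    V Γ κ x = ht x := by
  unfold V
  rw [orb_of_mem (quo_props Γ k x hx).2, Set.ncard_singleton, Nat.cast_one, Real.one_rpow, one_mul]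

end Pool.Agent.V5helper34.RG
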