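import Pool.Agent.V5helper34.RG.Gap

/-!
# A reduction of Rémond's conjecture (strong form) to primitive numbers, quotients of conjugates and
# one gap

All fields are subfields of `AlgebraicClosure ℚ`; subgroups of the multiplicative group are
subgroups of the unit group of `AlgebraicClosure ℚ`.
-/

set_option autoImplicit false

namespace Pool.Agent.Results.MP_f61260_nt.ReductionAndGap

open Pool.Agent.H58P (Qb ht)
open Pool.Agent.W237.RK
open Pool.Agent.TH53.RP
open Pool.Agent.TH53.BL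
open Pool.Agent.V5helper40.RRed
open Pool.Agent.V5helper34.RG (V one_gap prim_pow quo_pow V_quo)

/-- `β` lies in the division group of `Γ`: a positive power of `β` is an element of `Γ` -/
def InDivisionGroup (Γ : Subgroup (AlgebraicClosure ℚ)ˣ) (β : AlgebraicClosure ℚ) : Prop :=
  ∃ n : ℕ, 0 < n ∧ ∃ g ∈ Γ, β ^ n = (g : AlgebraicClosure ℚ)

/-- the field `ℚ(Γ_div)` generated by the division group of `Γ` -/
noncomputable def divisionField (Γ : Subgroup (AlgebraicClosure ℚ)ˣ) :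
    IntermediateField ℚ (AlgebraicClosure ℚ) :=
  IntermediateField.adjoin ℚ {y | InDivisionGroup Γ y}

/-- the degree `D_Γ(α)` of `α` over the field generated by the division group of `Γ` -/
noncomputable def divisionDegree (Γ : Subgroup (AlgebraicClosure ℚ)ˣ)
    (α : AlgebraicClosure ℚ) : ℕ :=
  (minpoly (divisionField Γ) α).natDegree

/-- the constant coefficient of the minimal polynomial of `α` over the field `F`, which is up to the
sign the norm of `α` from `F(α)` to `F` -/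
noncomputable def norm (F : IntermediateField ℚ (AlgebraicClosure ℚ)) (α : AlgebraicClosure ℚ) :
    AlgebraicClosure ℚ :=
  ((minpoly F α).coeff 0 : F)

/-- `F'` is a field between `ℚ(Γ_div)` and `ℚ(Γ_div, α)` -/
def Between (Γ : Subgroup (AlgebraicClosure ℚ)ˣ) (α : AlgebraicClosure ℚ)
    (F' : IntermediateField ℚ (AlgebraicClosure ℚ)) : Prop :=
  divisionField Γ ≤ F' ∧ F' ≤ divisionField Γ ⊔ IntermediateField.adjoin ℚ {α}

/-- Rémond's inequality in the strong form for the group `Γ` -/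
def RemondInequality (Γ : Subgroup (AlgebraicClosure ℚ)ˣ) : Prop :=
  ∃ c : ℝ, 0 < c ∧ ∀ α : AlgebraicClosure ℚ, α ≠ 0 → ¬ InDivisionGroup Γ α →
    c / (divisionDegree Γ α : ℝ) ≤ NumberField.absLogHeight₁ α

/-- `α` is primitive: it is not in `ℚ(Γ_div)`, its norms to all fields between `ℚ(Γ_div)` and
`ℚ(Γ_div, α)` which do not contain `α` are roots of unity, and no quotient of two distinct
conjugates of `α` over `ℚ(Γ_div)` is a root of unity -/
def IsPrimitive (Γ : Subgroup (AlgebraicClosure ℚ)ˣ) (α : AlgebraicClosure ℚ) : Prop :=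
  α ∉ divisionField Γ ∧
    (∀ F' : IntermediateField ℚ (AlgebraicClosure ℚ), Between Γ α F' → α ∉ F' →
      ∃ n : ℕ, 0 < n ∧ norm F' α ^ n = 1) ∧
    ∀ σ : AlgebraicClosure ℚ ≃ₐ[divisionField Γ] AlgebraicClosure ℚ,
      (∃ n : ℕ, 0 < n ∧ (σ α / α) ^ n = 1) → σ α = α

/-- Rémond's inequality in the strong form for the group `Γ` and the primitive numbers -/
def PrimitiveForm (Γ : Subgroup (AlgebraicClosure ℚ)ˣ) : Prop :=
  ∃ c : ℝ, 0 < c ∧ ∀ α : AlgebraicClosure ℚ, IsPrimitive Γ α → ¬ InDivisionGroup Γ α →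
    c / (divisionDegree Γ α : ℝ) ≤ NumberField.absLogHeight₁ α

/-- the field `ℚ(μ_∞, Γ)` -/
noncomputable def baseField (Γ : Subgroup (AlgebraicClosure ℚ)ˣ) :
    IntermediateField ℚ (AlgebraicClosure ℚ) :=
  IntermediateField.adjoin ℚ
    ({y | ∃ n : ℕ, 0 < n ∧ y ^ n = 1} ∪ {y | ∃ g ∈ Γ, y = (g : AlgebraicClosure ℚ)})

/-- `IteratedQuotients Γ 0` is the multiplicative group of `ℚ(Γ_div)`, and `IteratedQuotients Γ (k+1)`
is the set of the quotients `σ y / y`, where `y` is in `IteratedQuotients Γ k` and `σ` is an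
automorphism over `ℚ(μ_∞, Γ)` -/
def IteratedQuotients (Γ : Subgroup (AlgebraicClosure ℚ)ˣ) : ℕ → Set (AlgebraicClosure ℚ)
  | 0 => {x | x ≠ 0 ∧ x ∈ divisionField Γ}
  | k + 1 => {x | ∃ y ∈ IteratedQuotients Γ k,
      ∃ σ : AlgebraicClosure ℚ ≃ₐ[ℚ] AlgebraicClosure ℚ, (∀ z ∈ baseField Γ, σ z = z) ∧
        x = σ y / y}

/-- the small points of the set of `k`-fold quotients of conjugates lie in the division group; for
`k = 0` this is the degree one form of the conjecture -/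
def QuotientForm (Γ : Subgroup (AlgebraicClosure ℚ)ˣ) (k : ℕ) : Prop :=
  ∃ c : ℝ, 0 < c ∧ ∀ x ∈ IteratedQuotients Γ k, ¬ InDivisionGroup Γ x →
    c ≤ NumberField.absLogHeight₁ x

/-- `Γ` is stable under all automorphisms of the field of algebraic numbers -/
def GaloisStable (Γ : Subgroup (AlgebraicClosure ℚ)ˣ) : Prop :=
  ∀ σ : AlgebraicClosure ℚ ≃ₐ[ℚ] AlgebraicClosure ℚ, ∀ g ∈ Γ,
    Units.map (σ : AlgebraicClosure ℚ →* AlgebraicClosure ℚ) g ∈ Γ

lemma remond_iff (Γ : Subgroup (AlgebraicClosure ℚ)ˣ) : RemondInequality Γ ↔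
    ∃ c : ℝ, 0 < c ∧ ∀ x : Qb, x ≠ 0 → ¬ DivG Γ x → c ≤ ((orb (divF Γ) x).ncard : ℝ) * ht x := by
  have key : ∀ (c : ℝ) (x : Qb), (c / (divisionDegree Γ x : ℝ) ≤ NumberField.absLogHeight₁ x ↔
      c ≤ ((orb (divF Γ) x).ncard : ℝ) * ht x) := by
    intro c x
    have h1 : (orb (divF Γ) x).ncard = divisionDegree Γ x := orb_ncard _ _
    have h2 : (0 : ℝ) < ((orb (divF Γ) x).ncard : ℝ) := by exact_mod_cast orb_ncard_pos _ _
    rw [Pool.Agent.H58P.absLogHeight₁_eq, ← h1, div_le_iff₀ h2, mul_comm]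
  constructor
  · rintro ⟨c, hc, h⟩
    exact ⟨c, hc, fun x hx0 hx => (key c x).1 (h x hx0 hx)⟩
  · rintro ⟨c, hc, h⟩
    exact ⟨c, hc, fun x hx0 hx => (key c x).2 (h x hx0 hx)⟩

lemma tor_norm_iff (F : IntermediateField ℚ (AlgebraicClosure ℚ)) (x : AlgebraicClosure ℚ) :
    (∃ n : ℕ, 0 < n ∧ norm F x ^ n = 1) ↔ Tor (N F x) := by
  have h1 : norm F x = (-1) ^ (orb_finite F x).toFinset.card * N F x := coeff_zero_eq F x
  have h2 : Tor ((-1 : Qb) ^ (orb_finite F x).toFinset.card) := tor_neg_one_pow _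
  constructor
  · intro h
    have h3 : Tor (norm F x) := h
    rw [h1] at h3
    have h4 := h3.div h2
    rwa [mul_div_cancel_left₀ _ h2.ne_zero] at h4
  · intro h
    have h3 : Tor (norm F x) := by
      rw [h1]
      exact h2.mul h
    exact h3

lemma prim_of (Γ : Subgroup (AlgebraicClosure ℚ)ˣ) (x : AlgebraicClosure ℚ)
    (h : Prim Γ x) (hnd : ¬ InDivisionGroup Γ x) : IsPrimitive Γ x :=
  ⟨h.1, fun F' k k3 => (tor_norm_iff F' x).2 (h.2 F' k.1 k.2 k3), fun σ hσ =>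
    prim_torsionfree Γ x h hnd (σ.restrictScalars ℚ) (fun x hx => σ.commutes ⟨x, hx⟩) hσ⟩

lemma quo_iff (Γ : Subgroup (AlgebraicClosure ℚ)ˣ) (k : ℕ) :
    IteratedQuotients Γ k = Quo Γ k := by
  induction k with
  | zero => rfl
  | succ k ih =>
    ext x
    show (∃ y ∈ IteratedQuotients Γ k, _) ↔ (∃ y ∈ Quo Γ k, _)
    rw [ih]
    rfl

lemma main_iff (Γ : Subgroup (AlgebraicClosure ℚ)ˣ) (hΓ : Γ.FG) (k : ℕ) :
    RemondInequality Γ ↔ QuotientForm Γ k ∧ PrimitiveForm Γ := by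
  constructor
  · rintro ⟨c, hc, h⟩
    refine ⟨⟨c, hc, fun x hx hnd => ?_⟩, c, hc, fun x hx hnd => ?_⟩
    · rw [quo_iff] at hx
      obtain ⟨hx0, hxL⟩ := quo_props Γ k x hx
      have h1 := h x hx0 hnd
      have h2 : divisionDegree Γ x = 1 := by
        have h3 : (orb (divF Γ) x).ncard = divisionDegree Γ x := orb_ncard _ _
        rw [← h3, orb_of_mem hxL, Set.ncard_singleton]
      rwa [h2, Nat.cast_one, div_one] at h1
    · refine h x ?_ hnd
      rintro rfl
      exact hx.1 (zero_mem _)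
  · rintro ⟨⟨c, hc, h1⟩, c₂, hc₂, h2⟩
    obtain ⟨c₁, hc₁, h3⟩ := degree_one_of_quo Γ hΓ k ⟨c, hc, fun x hx hnd => by
      have h4 := h1 x (by rw [quo_iff]; exact hx) hnd
      rwa [Pool.Agent.H58P.absLogHeight₁_eq] at h4⟩
    rw [remond_iff]
    refine ⟨min c₁ (c₂ / 2), lt_min hc₁ (by positivity), fun x hx0 hx => ?_⟩
    refine reduce Γ hc₁ hc₂ h3 (fun y hy0 hy hyd => ?_) x hx0 hx
    have h4 := h2 y (prim_of Γ y hy hyd) hyd
    have h5 : (orb (divF Γ) y).ncard = divisionDegree Γ y := orb_ncard _ _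
    have h6 : (0 : ℝ) < ((orb (divF Γ) y).ncard : ℝ) := by exact_mod_cast orb_ncard_pos _ _
    rw [Pool.Agent.H58P.absLogHeight₁_eq, ← h5, div_le_iff₀ h6, mul_comm] at h4
    exact h4

lemma subgroup_form (Γ Γ' : Subgroup (AlgebraicClosure ℚ)ˣ) (hΓ : Γ.FG) (hΓ' : Γ'.FG)
    (hle : Γ ≤ Γ') (h : RemondInequality Γ') : RemondInequality Γ := by
  rw [remond_iff] at h ⊢
  exact subgroups Γ Γ' hΓ hΓ' hle h

/-- the set of the numbers `D_Γ(α) ^ κ * h(α)` for the algebraic numbers `α ≠ 0` of the set `C`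
outside the division group -/
def valuesOn (Γ : Subgroup (AlgebraicClosure ℚ)ˣ) (κ : ℝ) (C : Set (AlgebraicClosure ℚ)) : Set ℝ :=
  {s | ∃ α ∈ C, α ≠ 0 ∧ ¬ InDivisionGroup Γ α ∧
    s = (divisionDegree Γ α : ℝ) ^ κ * NumberField.absLogHeight₁ α}

/-- the set of the numbers `D_Γ(α) * h(α)` for all algebraic numbers `α ≠ 0` outside the division
group -/
def values (Γ : Subgroup (AlgebraicClosure ℚ)ˣ) : Set ℝ :=
  {s | ∃ α : AlgebraicClosure ℚ, α ≠ 0 ∧ ¬ InDivisionGroup Γ α ∧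
    s = (divisionDegree Γ α : ℝ) * NumberField.absLogHeight₁ α}

/-- the set of the numbers `D_Γ(α) * h(α)` for the primitive numbers `α` outside the division
group -/
def primitiveValues (Γ : Subgroup (AlgebraicClosure ℚ)ˣ) : Set ℝ :=
  {s | ∃ α : AlgebraicClosure ℚ, IsPrimitive Γ α ∧ ¬ InDivisionGroup Γ α ∧
    s = (divisionDegree Γ α : ℝ) * NumberField.absLogHeight₁ α}

/-- the set of the heights of the `k`-fold quotients of conjugates outside the division group; for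
`k = 0` these are the heights of the nonzero numbers of `ℚ(Γ_div)` outside the division group -/
def quotientHeights (Γ : Subgroup (AlgebraicClosure ℚ)ˣ) (k : ℕ) : Set ℝ :=
  {s | ∃ α ∈ IteratedQuotients Γ k, ¬ InDivisionGroup Γ α ∧ s = NumberField.absLogHeight₁ α}

/-- the positive powers of the elements of `C` are in `C` -/
def PowerClosed (C : Set (AlgebraicClosure ℚ)) : Prop :=
  ∀ α ∈ C, ∀ n : ℕ, 0 < n → α ^ n ∈ C

/-- every open interval of nonnegative numbers contains an element of `S` -/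
def AvoidsNoInterval (S : Set ℝ) : Prop :=
  ∀ a b : ℝ, 0 ≤ a → a < b → ∃ s ∈ S, a < s ∧ s < b

/-- if `S` avoids the interval `(a, b)`, then all its elements are at least `b - a` -/
def GapIsLowerBound (S : Set ℝ) : Prop :=
  ∀ a b : ℝ, 0 ≤ a → (∀ s ∈ S, ¬ (a < s ∧ s < b)) → ∀ s ∈ S, b - a ≤ s

lemma not_avoids {S : Set ℝ} (h : ¬ AvoidsNoInterval S) :
    ∃ a b : ℝ, 0 ≤ a ∧ a < b ∧ ∀ s ∈ S, ¬ (a < s ∧ s < b) := by
  unfold AvoidsNoInterval at h
  push Not at h
  obtain ⟨a, b, ha, hab, hS⟩ := h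
  exact ⟨a, b, ha, hab, fun s hs h1 => absurd h1.2 (not_lt.2 (hS s hs h1.1))⟩

lemma avoids_of {S : Set ℝ} {c : ℝ} (hc : 0 < c) (h : ∀ s ∈ S, c ≤ s) : ¬ AvoidsNoInterval S := by
  intro h1
  obtain ⟨s, hs, _, h2⟩ := h1 0 c le_rfl hc
  exact absurd (h s hs) (not_le.2 h2)

lemma bound_of {S : Set ℝ} (hS : GapIsLowerBound S) (h : ¬ AvoidsNoInterval S) :
    ∃ c : ℝ, 0 < c ∧ ∀ s ∈ S, c ≤ s := by
  obtain ⟨a, b, ha, hab, h1⟩ := not_avoids h
  exact ⟨b - a, by linarith, hS a b ha h1⟩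

lemma value_eq (Γ : Subgroup (AlgebraicClosure ℚ)ˣ) (κ : ℝ) (x : AlgebraicClosure ℚ) :
    (divisionDegree Γ x : ℝ) ^ κ * NumberField.absLogHeight₁ x = V Γ κ x := by
  have h1 : (orb (divF Γ) x).ncard = divisionDegree Γ x := orb_ncard _ _
  unfold V
  rw [h1, Pool.Agent.H58P.absLogHeight₁_eq]

lemma gap_values (Γ : Subgroup (AlgebraicClosure ℚ)ˣ) {κ : ℝ} (hκ : 1 ≤ κ)
    {C : Set (AlgebraicClosure ℚ)} (hC : PowerClosed C) : GapIsLowerBound (valuesOn Γ κ C) := by
  intro a b ha hS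
  rintro _ ⟨x, hxC, hx0, hx, rfl⟩
  rw [value_eq]
  refine one_gap Γ hκ C hC ha (fun y hyC hy0 hy hmem => ?_) x hxC hx0 hx
  exact hS _ ⟨y, hyC, hy0, hy, rfl⟩ (by rw [value_eq]; exact hmem)

lemma values_eq (Γ : Subgroup (AlgebraicClosure ℚ)ˣ) : values Γ = valuesOn Γ 1 Set.univ := by
  ext s
  constructor
  · rintro ⟨x, hx0, hx, rfl⟩
    exact ⟨x, Set.mem_univ x, hx0, hx, by rw [Real.rpow_one]⟩
  · rintro ⟨x, _, hx0, hx, rfl⟩
    exact ⟨x, hx0, hx, by rw [Real.rpow_one]⟩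

lemma gap_all (Γ : Subgroup (AlgebraicClosure ℚ)ˣ) : GapIsLowerBound (values Γ) := by
  rw [values_eq]
  exact gap_values Γ le_rfl fun _ _ _ _ => Set.mem_univ _

lemma primitive_eq (Γ : Subgroup (AlgebraicClosure ℚ)ˣ) :
    primitiveValues Γ = valuesOn Γ 1 {α | IsPrimitive Γ α ∧ ¬ InDivisionGroup Γ α} := by
  ext s
  constructor
  · rintro ⟨x, hp, hx, rfl⟩
    refine ⟨x, ⟨hp, hx⟩, ?_, hx, by rw [Real.rpow_one]⟩
    rintro rfl
    exact hp.1 (zero_mem _)
  · rintro ⟨x, ⟨hp, _⟩, hx0, hx, rfl⟩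
    exact ⟨x, hp, hx, by rw [Real.rpow_one]⟩

lemma gap_primitive (Γ : Subgroup (AlgebraicClosure ℚ)ˣ) : GapIsLowerBound (primitiveValues Γ) := by
  rw [primitive_eq]
  refine gap_values Γ le_rfl ?_
  rintro x ⟨hp, hx⟩ n hn
  have h1 : Prim Γ x := ⟨hp.1, fun F' h1 h2 h3 => (tor_norm_iff F' x).1 (hp.2.1 F' ⟨h1, h2⟩ h3)⟩
  have h2 : ¬ InDivisionGroup Γ (x ^ n) := fun h => hx (DivG.of_pow hn h)
  exact ⟨prim_of Γ _ (prim_pow Γ h1 hx hn) h2, h2⟩

lemma quotient_eq (Γ : Subgroup (AlgebraicClosure ℚ)ˣ) (k : ℕ) :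
    quotientHeights Γ k = valuesOn Γ 1 (IteratedQuotients Γ k) := by
  ext s
  constructor
  · rintro ⟨x, hq, hx, rfl⟩
    have hq' := hq
    rw [quo_iff] at hq'
    exact ⟨x, hq, (quo_props Γ k x hq').1, hx, by
      rw [value_eq, V_quo Γ k hq', Pool.Agent.H58P.absLogHeight₁_eq]⟩
  · rintro ⟨x, hq, hx0, hx, rfl⟩
    have hq' := hq
    rw [quo_iff] at hq'
    exact ⟨x, hq, hx, by rw [value_eq, V_quo Γ k hq', Pool.Agent.H58P.absLogHeight₁_eq]⟩

lemma gap_quotient (Γ : Subgroup (AlgebraicClosure ℚ)ˣ) (k : ℕ) :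
    GapIsLowerBound (quotientHeights Γ k) := by
  rw [quotient_eq]
  refine gap_values Γ le_rfl ?_
  intro x hx n _
  rw [quo_iff] at hx ⊢
  exact quo_pow Γ k x hx n

lemma remond_values (Γ : Subgroup (AlgebraicClosure ℚ)ˣ) :
    RemondInequality Γ ↔ ∃ c : ℝ, 0 < c ∧ ∀ s ∈ values Γ, c ≤ s := by
  rw [remond_iff, values_eq]
  constructor
  · rintro ⟨c, hc, h⟩
    refine ⟨c, hc, ?_⟩
    rintro _ ⟨x, _, hx0, hx, rfl⟩
    have h1 := h x hx0 hx
    rw [value_eq]
    unfold V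
    rwa [Real.rpow_one]
  · rintro ⟨c, hc, h⟩
    refine ⟨c, hc, fun x hx0 hx => ?_⟩
    have h1 := h _ ⟨x, Set.mem_univ x, hx0, hx, rfl⟩
    rw [value_eq] at h1
    unfold V at h1
    rwa [Real.rpow_one] at h1

lemma dichotomy (Γ : Subgroup (AlgebraicClosure ℚ)ˣ) :
    RemondInequality Γ ↔ ¬ AvoidsNoInterval (values Γ) := by
  rw [remond_values]
  exact ⟨fun ⟨c, hc, h⟩ => avoids_of hc h, bound_of (gap_all Γ)⟩

lemma primitive_iff (Γ : Subgroup (AlgebraicClosure ℚ)ˣ) :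
    PrimitiveForm Γ ↔ ¬ AvoidsNoInterval (primitiveValues Γ) := by
  have key : ∀ (c : ℝ) (x : AlgebraicClosure ℚ),
      (c / (divisionDegree Γ x : ℝ) ≤ NumberField.absLogHeight₁ x ↔
      c ≤ (divisionDegree Γ x : ℝ) * NumberField.absLogHeight₁ x) := by
    intro c x
    have h1 : (orb (divF Γ) x).ncard = divisionDegree Γ x := orb_ncard _ _
    have h2 : (0 : ℝ) < ((orb (divF Γ) x).ncard : ℝ) := by exact_mod_cast orb_ncard_pos _ _
    rw [h1] at h2
    rw [div_le_iff₀ h2, mul_comm]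
  constructor
  · rintro ⟨c, hc, h⟩
    refine avoids_of hc ?_
    rintro _ ⟨x, hp, hx, rfl⟩
    exact (key c x).1 (h x hp hx)
  · intro h
    obtain ⟨c, hc, h1⟩ := bound_of (gap_primitive Γ) h
    exact ⟨c, hc, fun x hp hx => (key c x).2 (h1 _ ⟨x, hp, hx, rfl⟩)⟩

lemma quotient_iff (Γ : Subgroup (AlgebraicClosure ℚ)ˣ) (k : ℕ) :
    QuotientForm Γ k ↔ ¬ AvoidsNoInterval (quotientHeights Γ k) := by
  constructor
  · rintro ⟨c, hc, h⟩
    refine avoids_of hc ?_
    rintro _ ⟨x, hp, hx, rfl⟩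
    exact h x hp hx
  · intro h
    obtain ⟨c, hc, h1⟩ := bound_of (gap_quotient Γ k) h
    exact ⟨c, hc, fun x hp hx => h1 _ ⟨x, hp, hx, rfl⟩⟩

/-- **Reduction of Rémond's conjecture to one gap.**

(1) Let `Γ` be any subgroup of the multiplicative group of the algebraic numbers, `κ ≥ 1` and `C` a
set of algebraic numbers which contains the positive powers of its elements (all numbers, a field,
the totally real numbers, the algebraic integers, ...). If no number `D_Γ(α) ^ κ * h(α)` with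
`α ≠ 0` in `C` outside the division group lies in the interval `(a, b)`, `0 ≤ a`, then all these
numbers are at least `b - a`. The same holds for the numbers `D_Γ(α) * h(α)` of the primitive
numbers `α`, and for the heights of the `k`-fold quotients of conjugates, for every `k`. Hence
Rémond's inequality for `Γ` holds if and only if the numbers `D_Γ(α) * h(α)` avoid one interval.

(2) For every finitely generated group `Γ` and every `k`, Rémond's inequality for `Γ` holds if and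
only if (a) the heights of the `k`-fold iterated quotients `σ y / y` of conjugates over
`ℚ(μ_∞, Γ)` in `ℚ(Γ_div)*` outside `Γ_div` avoid one interval (for `k = 0`: the heights of the
elements of `ℚ(Γ_div)*` outside `Γ_div`), and (b) the numbers `D_Γ(α) * h(α)` of the primitive
numbers outside `Γ_div` avoid one interval, the primitive numbers being the numbers `α ∉ ℚ(Γ_div)`
all whose norms to the fields `F'` with `ℚ(Γ_div) ⊆ F' ⊊ ℚ(Γ_div, α)` are roots of unity and for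
which no quotient of two distinct conjugates over `ℚ(Γ_div)` is a root of unity.

(3) The inequality for a finitely generated group implies the inequality for all its finitely
generated subgroups. So if it fails for `Γ₀`, then for every finitely generated group which
contains `Γ₀` the numbers `D_Γ(α) * h(α)` are dense in the nonnegative real numbers.

(4) Let `Γ₀` be a finitely generated group and `k` a natural number. The conjecture (for all `Γ`)
is equivalent to (a) and (b) for all finitely generated groups `Γ` which contain `Γ₀` and are stable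
under all automorphisms of the field of algebraic numbers; and also to the following: every finitely
generated group is contained in a finitely generated group `Γ` stable under all automorphisms for
which the numbers `D_Γ(α) * h(α)` avoid one interval. -/
theorem result :
    (∀ Γ : Subgroup (AlgebraicClosure ℚ)ˣ,
      (∀ κ : ℝ, 1 ≤ κ → ∀ C : Set (AlgebraicClosure ℚ), PowerClosed C →
        GapIsLowerBound (valuesOn Γ κ C)) ∧
      GapIsLowerBound (primitiveValues Γ) ∧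
      (∀ k : ℕ, GapIsLowerBound (quotientHeights Γ k)) ∧
      (RemondInequality Γ ↔ ¬ AvoidsNoInterval (values Γ))) ∧
    (∀ Γ : Subgroup (AlgebraicClosure ℚ)ˣ, Γ.FG → ∀ k : ℕ,
      (RemondInequality Γ ↔
        ¬ AvoidsNoInterval (quotientHeights Γ k) ∧ ¬ AvoidsNoInterval (primitiveValues Γ))) ∧
    (∀ Γ Γ' : Subgroup (AlgebraicClosure ℚ)ˣ, Γ.FG → Γ'.FG → Γ ≤ Γ' →
      (RemondInequality Γ' → RemondInequality Γ) ∧
      (¬ RemondInequality Γ → AvoidsNoInterval (values Γ'))) ∧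
    (∀ Γ₀ : Subgroup (AlgebraicClosure ℚ)ˣ, Γ₀.FG → ∀ k : ℕ,
      ((∀ Γ : Subgroup (AlgebraicClosure ℚ)ˣ, Γ.FG → RemondInequality Γ) ↔
        ∀ Γ : Subgroup (AlgebraicClosure ℚ)ˣ, Γ.FG → Γ₀ ≤ Γ → GaloisStable Γ →
          ¬ AvoidsNoInterval (quotientHeights Γ k) ∧ ¬ AvoidsNoInterval (primitiveValues Γ))) ∧
    ((∀ Γ : Subgroup (AlgebraicClosure ℚ)ˣ, Γ.FG → RemondInequality Γ) ↔
      ∀ Γ₀ : Subgroup (AlgebraicClosure ℚ)ˣ, Γ₀.FG →
        ∃ Γ : Subgroup (AlgebraicClosure ℚ)ˣ, Γ.FG ∧ Γ₀ ≤ Γ ∧ GaloisStable Γ ∧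
          ¬ AvoidsNoInterval (values Γ)) := by
  have h3 : ∀ Γ : Subgroup (AlgebraicClosure ℚ)ˣ, Γ.FG → ∀ k : ℕ,
      (RemondInequality Γ ↔
        ¬ AvoidsNoInterval (quotientHeights Γ k) ∧ ¬ AvoidsNoInterval (primitiveValues Γ)) := by
    intro Γ hΓ k
    rw [main_iff Γ hΓ k, quotient_iff, primitive_iff]
  refine ⟨fun Γ => ⟨fun κ hκ C hC => gap_values Γ hκ hC, gap_primitive Γ,
    gap_quotient Γ, dichotomy Γ⟩, h3, fun Γ Γ' hΓ hΓ' hle =>
    ⟨subgroup_form Γ Γ' hΓ hΓ' hle, fun hnot => ?_⟩, ?_, ?_⟩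
  · by_contra h
    exact hnot (subgroup_form Γ Γ' hΓ hΓ' hle ((dichotomy Γ').2 h))
  · intro Γ₀ hΓ₀ k
    constructor
    · intro h Γ hΓ _ _
      exact (h3 Γ hΓ k).1 (h Γ hΓ)
    · intro h Γ hΓ
      obtain ⟨Γ', h1, h2, h4⟩ := stable_hull (Γ₀ ⊔ Γ) (Subgroup.FG.sup hΓ₀ hΓ)
      have h5 := (h3 Γ' h1 k).2 (h Γ' h1 (le_sup_left.trans h2) h4)
      exact subgroup_form Γ Γ' hΓ h1 (le_sup_right.trans h2) h5
  · constructor
    · intro h Γ₀ hΓ₀
      obtain ⟨Γ, h1, h2, h4⟩ := stable_hull Γ₀ hΓ₀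
      exact ⟨Γ, h1, h2, h4, (dichotomy Γ).1 (h Γ h1)⟩
    · intro h Γ hΓ
      obtain ⟨Γ', h1, h2, _, h4⟩ := h Γ hΓ
      exact subgroup_form Γ Γ' hΓ h1 h2 ((dichotomy Γ').2 h4)

end Pool.Agent.Results.MP_f61260_nt.ReductionAndGap
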