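import Pool.Agent.V5helper40.RRed.Quo

/-!
# A reduction of Rémond's conjecture (strong form) to primitive numbers and quotients of conjugates

All fields are subfields of `AlgebraicClosure ℚ`; subgroups of the multiplicative group are
subgroups of the unit group of `AlgebraicClosure ℚ`.
-/

set_option autoImplicit false

namespace Pool.Agent.Results.MP_f61260_nt.ReductionToPrimitive

open Pool.Agent.H58P (Qb ht)
open Pool.Agent.W237.RK
open Pool.Agent.TH53.RP
open Pool.Agent.TH53.BL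
open Pool.Agent.V5helper40.RRed

/-- `β` lies in the division group of `Γ`: a positive power of `β` is an element of `Γ` -/
def InDivisionGroup (Γ : Subgroup (AlgebraicClosure ℚ)ˣ) (β : AlgebraicClosure ℚ) : Prop :=
  ∃ n : ℕ, 0 < n ∧ ∃ g ∈ Γ, β ^ n = (g : AlgebraicClosure ℚ)

/-- the field `ℚ(Γ_div)` generated by the division group of `Γ` -/
noncomputable def divisionField (Γ : Subgroup (AlgebraicClosure ℚ)ˣ) :
    IntermediateField ℚ (AlgebraicClosure ℚ) :=
  IntermediateField.adjoin ℚ {y | InDivisionGroup Γ y}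

/-- the degree `D_Γ(α)` of `α` over the field generated by the division group of `Γ` -/
noncomputable def divisionDegree (Γ : Subgroup (AlgebraicClosure ℚ)ˣ)
    (α : AlgebraicClosure ℚ) : ℕ :=
  (minpoly (divisionField Γ) α).natDegree

/-- the constant coefficient of the minimal polynomial of `α` over the field `F`, which is up to the
sign the norm of `α` from `F(α)` to `F` -/
noncomputable def norm (F : IntermediateField ℚ (AlgebraicClosure ℚ)) (α : AlgebraicClosure ℚ) :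
    AlgebraicClosure ℚ :=
  ((minpoly F α).coeff 0 : F)

/-- `F'` is a field between `ℚ(Γ_div)` and `ℚ(Γ_div, α)` -/
def Between (Γ : Subgroup (AlgebraicClosure ℚ)ˣ) (α : AlgebraicClosure ℚ)
    (F' : IntermediateField ℚ (AlgebraicClosure ℚ)) : Prop :=
  divisionField Γ ≤ F' ∧ F' ≤ divisionField Γ ⊔ IntermediateField.adjoin ℚ {α}

/-- Rémond's inequality in the strong form for the group `Γ` -/
def RemondInequality (Γ : Subgroup (AlgebraicClosure ℚ)ˣ) : Prop :=
  ∃ c : ℝ, 0 < c ∧ ∀ α : AlgebraicClosure ℚ, α ≠ 0 → ¬ InDivisionGroup Γ α →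
    c / (divisionDegree Γ α : ℝ) ≤ NumberField.absLogHeight₁ α

/-- `α` is primitive: it is not in `ℚ(Γ_div)`, its norms to all fields between `ℚ(Γ_div)` and
`ℚ(Γ_div, α)` which do not contain `α` are roots of unity, and no quotient of two distinct
conjugates of `α` over `ℚ(Γ_div)` is a root of unity -/
def IsPrimitive (Γ : Subgroup (AlgebraicClosure ℚ)ˣ) (α : AlgebraicClosure ℚ) : Prop :=
  α ∉ divisionField Γ ∧
    (∀ F' : IntermediateField ℚ (AlgebraicClosure ℚ), Between Γ α F' → α ∉ F' →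
      ∃ n : ℕ, 0 < n ∧ norm F' α ^ n = 1) ∧
    ∀ σ : AlgebraicClosure ℚ ≃ₐ[divisionField Γ] AlgebraicClosure ℚ,
      (∃ n : ℕ, 0 < n ∧ (σ α / α) ^ n = 1) → σ α = α

/-- Rémond's inequality in the strong form for the group `Γ` and the primitive numbers -/
def PrimitiveForm (Γ : Subgroup (AlgebraicClosure ℚ)ˣ) : Prop :=
  ∃ c : ℝ, 0 < c ∧ ∀ α : AlgebraicClosure ℚ, IsPrimitive Γ α → ¬ InDivisionGroup Γ α →
    c / (divisionDegree Γ α : ℝ) ≤ NumberField.absLogHeight₁ α

/-- the field `ℚ(μ_∞, Γ)` -/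
noncomputable def baseField (Γ : Subgroup (AlgebraicClosure ℚ)ˣ) :
    IntermediateField ℚ (AlgebraicClosure ℚ) :=
  IntermediateField.adjoin ℚ
    ({y | ∃ n : ℕ, 0 < n ∧ y ^ n = 1} ∪ {y | ∃ g ∈ Γ, y = (g : AlgebraicClosure ℚ)})

/-- `IteratedQuotients Γ 0` is the multiplicative group of `ℚ(Γ_div)`, and `IteratedQuotients Γ (k+1)`
is the set of the quotients `σ y / y`, where `y` is in `IteratedQuotients Γ k` and `σ` is an
automorphism over `ℚ(μ_∞, Γ)` -/
def IteratedQuotients (Γ : Subgroup (AlgebraicClosure ℚ)ˣ) : ℕ → Set (AlgebraicClosure ℚ)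
  | 0 => {x | x ≠ 0 ∧ x ∈ divisionField Γ}
  | k + 1 => {x | ∃ y ∈ IteratedQuotients Γ k,
      ∃ σ : AlgebraicClosure ℚ ≃ₐ[ℚ] AlgebraicClosure ℚ, (∀ z ∈ baseField Γ, σ z = z) ∧
        x = σ y / y}

/-- the small points of the set of `k`-fold quotients of conjugates lie in the division group; for
`k = 0` this is the degree one form of the conjecture -/
def QuotientForm (Γ : Subgroup (AlgebraicClosure ℚ)ˣ) (k : ℕ) : Prop :=
  ∃ c : ℝ, 0 < c ∧ ∀ x ∈ IteratedQuotients Γ k, ¬ InDivisionGroup Γ x →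
    c ≤ NumberField.absLogHeight₁ x

/-- `Γ` is stable under all automorphisms of the field of algebraic numbers -/
def GaloisStable (Γ : Subgroup (AlgebraicClosure ℚ)ˣ) : Prop :=
  ∀ σ : AlgebraicClosure ℚ ≃ₐ[ℚ] AlgebraicClosure ℚ, ∀ g ∈ Γ,
    Units.map (σ : AlgebraicClosure ℚ →* AlgebraicClosure ℚ) g ∈ Γ

lemma remond_iff (Γ : Subgroup (AlgebraicClosure ℚ)ˣ) : RemondInequality Γ ↔
    ∃ c : ℝ, 0 < c ∧ ∀ x : Qb, x ≠ 0 → ¬ DivG Γ x → c ≤ ((orb (divF Γ) x).ncard : ℝ) * ht x := by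
  have key : ∀ (c : ℝ) (x : Qb), (c / (divisionDegree Γ x : ℝ) ≤ NumberField.absLogHeight₁ x ↔
      c ≤ ((orb (divF Γ) x).ncard : ℝ) * ht x) := by
    intro c x
    have h1 : (orb (divF Γ) x).ncard = divisionDegree Γ x := orb_ncard _ _
    have h2 : (0 : ℝ) < ((orb (divF Γ) x).ncard : ℝ) := by exact_mod_cast orb_ncard_pos _ _
    rw [Pool.Agent.H58P.absLogHeight₁_eq, ← h1, div_le_iff₀ h2, mul_comm]
  constructor
  · rintro ⟨c, hc, h⟩
    exact ⟨c, hc, fun x hx0 hx => (key c x).1 (h x hx0 hx)⟩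
  · rintro ⟨c, hc, h⟩
    exact ⟨c, hc, fun x hx0 hx => (key c x).2 (h x hx0 hx)⟩

lemma tor_norm_iff (F : IntermediateField ℚ (AlgebraicClosure ℚ)) (x : AlgebraicClosure ℚ) :
    (∃ n : ℕ, 0 < n ∧ norm F x ^ n = 1) ↔ Tor (N F x) := by
  have h1 : norm F x = (-1) ^ (orb_finite F x).toFinset.card * N F x := coeff_zero_eq F x
  have h2 : Tor ((-1 : Qb) ^ (orb_finite F x).toFinset.card) := tor_neg_one_pow _
  constructor
  · intro h
    have h3 : Tor (norm F x) := h
    rw [h1] at h3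
    have h4 := h3.div h2
    rwa [mul_div_cancel_left₀ _ h2.ne_zero] at h4
  · intro h
    have h3 : Tor (norm F x) := by
      rw [h1]
      exact h2.mul h
    exact h3

lemma prim_of (Γ : Subgroup (AlgebraicClosure ℚ)ˣ) (x : AlgebraicClosure ℚ)
    (h : Prim Γ x) (hnd : ¬ InDivisionGroup Γ x) : IsPrimitive Γ x :=
  ⟨h.1, fun F' k k3 => (tor_norm_iff F' x).2 (h.2 F' k.1 k.2 k3), fun σ hσ =>
    prim_torsionfree Γ x h hnd (σ.restrictScalars ℚ) (fun x hx => σ.commutes ⟨x, hx⟩) hσ⟩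

lemma quo_iff (Γ : Subgroup (AlgebraicClosure ℚ)ˣ) (k : ℕ) :
    IteratedQuotients Γ k = Quo Γ k := by
  induction k with
  | zero => rfl
  | succ k ih =>
    ext x
    show (∃ y ∈ IteratedQuotients Γ k, _) ↔ (∃ y ∈ Quo Γ k, _)
    rw [ih]
    rfl

lemma main_iff (Γ : Subgroup (AlgebraicClosure ℚ)ˣ) (hΓ : Γ.FG) (k : ℕ) :
    RemondInequality Γ ↔ QuotientForm Γ k ∧ PrimitiveForm Γ := by
  constructor
  · rintro ⟨c, hc, h⟩
    refine ⟨⟨c, hc, fun x hx hnd => ?_⟩, c, hc, fun x hx hnd => ?_⟩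
    · rw [quo_iff] at hx
      obtain ⟨hx0, hxL⟩ := quo_props Γ k x hx
      have h1 := h x hx0 hnd
      have h2 : divisionDegree Γ x = 1 := by
        have h3 : (orb (divF Γ) x).ncard = divisionDegree Γ x := orb_ncard _ _
        rw [← h3, orb_of_mem hxL, Set.ncard_singleton]
      rwa [h2, Nat.cast_one, div_one] at h1
    · refine h x ?_ hnd
      rintro rfl
      exact hx.1 (zero_mem _)
  · rintro ⟨⟨c, hc, h1⟩, c₂, hc₂, h2⟩
    obtain ⟨c₁, hc₁, h3⟩ := degree_one_of_quo Γ hΓ k ⟨c, hc, fun x hx hnd => by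
      have h4 := h1 x (by rw [quo_iff]; exact hx) hnd
      rwa [Pool.Agent.H58P.absLogHeight₁_eq] at h4⟩
    rw [remond_iff]
    refine ⟨min c₁ (c₂ / 2), lt_min hc₁ (by positivity), fun x hx0 hx => ?_⟩
    refine reduce Γ hc₁ hc₂ h3 (fun y hy0 hy hyd => ?_) x hx0 hx
    have h4 := h2 y (prim_of Γ y hy hyd) hyd
    have h5 : (orb (divF Γ) y).ncard = divisionDegree Γ y := orb_ncard _ _
    have h6 : (0 : ℝ) < ((orb (divF Γ) y).ncard : ℝ) := by exact_mod_cast orb_ncard_pos _ _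
    rw [Pool.Agent.H58P.absLogHeight₁_eq, ← h5, div_le_iff₀ h6, mul_comm] at h4
    exact h4

lemma subgroup_form (Γ Γ' : Subgroup (AlgebraicClosure ℚ)ˣ) (hΓ : Γ.FG) (hΓ' : Γ'.FG)
    (hle : Γ ≤ Γ') (h : RemondInequality Γ') : RemondInequality Γ := by
  rw [remond_iff] at h ⊢
  exact subgroups Γ Γ' hΓ hΓ' hle h

/-- **Reduction of Rémond's conjecture.**

(1) For every finitely generated group `Γ` and every `k`, Rémond's inequality for `Γ` holds if and
only if (a) the small points of the set of `k`-fold iterated quotients `σ y / y` of conjugates over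
`ℚ(μ_∞, Γ)` in `ℚ(Γ_div)*` lie in `Γ_div` (for `k = 0`: the degree one form), and (b) the inequality
holds for the primitive numbers, that is, for the numbers `α ∉ ℚ(Γ_div)` all whose norms to the
fields `F'` with `ℚ(Γ_div) ⊆ F' ⊊ ℚ(Γ_div, α)` are roots of unity and for which no quotient of two
distinct conjugates over `ℚ(Γ_div)` is a root of unity.

(2) The inequality for a finitely generated group implies the inequality for all its finitely
generated subgroups.

(3) Let `Γ₀` be a finitely generated group and `k` a natural number. The conjecture (for all `Γ`)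
is equivalent to (a) and (b) for all finitely generated groups `Γ` which contain `Γ₀` and are stable
under all automorphisms of the field of algebraic numbers. -/
theorem result :
    (∀ Γ : Subgroup (AlgebraicClosure ℚ)ˣ, Γ.FG → ∀ k : ℕ,
      (RemondInequality Γ ↔ QuotientForm Γ k ∧ PrimitiveForm Γ)) ∧
    (∀ Γ Γ' : Subgroup (AlgebraicClosure ℚ)ˣ, Γ.FG → Γ'.FG → Γ ≤ Γ' →
      RemondInequality Γ' → RemondInequality Γ) ∧
    (∀ Γ₀ : Subgroup (AlgebraicClosure ℚ)ˣ, Γ₀.FG → ∀ k : ℕ,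
      ((∀ Γ : Subgroup (AlgebraicClosure ℚ)ˣ, Γ.FG → RemondInequality Γ) ↔
        ∀ Γ : Subgroup (AlgebraicClosure ℚ)ˣ, Γ.FG → Γ₀ ≤ Γ → GaloisStable Γ →
          QuotientForm Γ k ∧ PrimitiveForm Γ)) := by
  refine ⟨fun Γ hΓ k => main_iff Γ hΓ k, fun Γ Γ' hΓ hΓ' hle h =>
    subgroup_form Γ Γ' hΓ hΓ' hle h, ?_⟩
  intro Γ₀ hΓ₀ k
  constructor
  · intro h Γ hΓ _ _
    exact (main_iff Γ hΓ k).1 (h Γ hΓ)
  · intro h Γ hΓ
    obtain ⟨Γ', h1, h2, h3⟩ := stable_hull (Γ₀ ⊔ Γ) (Subgroup.FG.sup hΓ₀ hΓ)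
    have h4 := (main_iff Γ' h1 k).2 (h Γ' h1 (le_sup_left.trans h2) h3)
    exact subgroup_form Γ Γ' hΓ h1 (le_sup_right.trans h2) h4

end Pool.Agent.Results.MP_f61260_nt.ReductionToPrimitive
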